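import Pool.Agent.Y303.EJ.Stm
import Pool.Agent.Y841.SK.MM

/-!
Project EJ: elementary properties of the main modes (adaptation of `Pool.Agent.Y841.SK.t_MM`).
-/

open Set Filter Topology MeasureTheory Metric

set_option autoImplicit false

namespace Pool.Agent.Y686.EJ

open Pool.Agent.Y5 (E3)
open Pool.Agent.Y303.SK Pool.Agent.Y303.EJ Pool.Agent.Y841.SK

theorem parE_step {Ψ H : E3 → E3} {a κ h q q' G δ η : ℝ} {r α ε lm L : ℕ → ℝ}
    (P : Pk Ψ H a κ h q q') (Q : ParE a κ h q' G δ η r α ε lm L) (n : ℕ) : r (n + 1) ≤ r n := by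
  have h1 := Q.rstep n
  have h2 := Q.r0 n
  have h3 := par_q' P
  nlinarith

theorem parE_anti {Ψ H : E3 → E3} {a κ h q q' G δ η : ℝ} {r α ε lm L : ℕ → ℝ}
    (P : Pk Ψ H a κ h q q') (Q : ParE a κ h q' G δ η r α ε lm L) : Antitone r :=
  antitone_nat_of_succ_le (parE_step P Q)

theorem t_MME : S_MME := by
  intro p Ψ H a κ h q q' G δ η r α ε lm L P Q
  have q0 : 0 < q := P.q'0.trans P.qq
  have cΨ : ∀ n, CS (ball p (r n)) (sc p (r n) Ψ) := fun n =>
    cs_sc p (Q.r0 n) P.Ψcs fun x hx => by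
      rw [mem_ball_zero_iff, norm_smul, norm_inv, Real.norm_of_nonneg (Q.r0 n).le,
        inv_mul_lt_iff₀ (Q.r0 n), mul_one] at hx
      rwa [mem_ball_iff_norm]
  have cH : ∀ n, CS (ball p (r n)) (sc p (r (n + 1)) H) := fun n =>
    cs_sc p (Q.r0 (n + 1)) P.Hcs fun x hx => by
      have h1 := hx.1
      rw [mem_ball_zero_iff, norm_smul, norm_inv, Real.norm_of_nonneg (Q.r0 (n + 1)).le,
        inv_mul_lt_iff₀ (Q.r0 (n + 1))] at h1
      rw [mem_ball_iff_norm]
      have h2 := parE_step P Q n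
      have h3 := Q.r0 (n + 1)
      have h4 := P.q1
      nlinarith
  have lin : ∀ n, ∀ x ∈ ball p (r (n + 1)), α n • sc p (r n) Ψ x = Am a r α n • Sm (x - p) := by
    intro n x hx
    have h1 : x ∈ ball p (q * r n) := by
      refine ball_subset_ball ?_ hx
      have h2 := Q.rstep n
      have h3 := Q.r0 n
      have h4 := P.qq
      nlinarith
    rw [Ψ_near P p (Q.r0 n) h1, smul_smul]
    congr 1
    unfold Am
    ring
  refine ⟨fun n => cs_comb (cΨ n) (cH n) _ _, fun n x hx => ?_, fun n m hm x hx => ?_, fun n => ?_,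
    fun n => ⟨dirf_nonneg _, ?_⟩⟩
  · show α n • sc p (r n) Ψ x + ε n • sc p (r (n + 1)) H x = _
    rw [lin n x hx]
  · show α n • sc p (r n) Ψ x + ε n • sc p (r (n + 1)) H x = _
    have h1 : r m ≤ r (n + 2) := parE_anti P Q hm
    have h2 := Q.rstep (n + 1)
    have h3 := Q.r0 (n + 1)
    have h4 := par_q' P
    have hx1 : x ∈ ball p (r (n + 1)) := by
      refine ball_subset_ball ?_ hx
      nlinarith
    rw [lin n x hx1]
    have h5 : H ((r (n + 1))⁻¹ • (x - p)) = 0 := by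
      refine image_eq_zero_of_notMem_tsupport fun hh => ?_
      have h6 := (P.Hcs.supp hh).2
      refine h6 ?_
      rw [mem_closedBall_zero_iff, norm_smul, norm_inv, Real.norm_of_nonneg h3.le,
        inv_mul_le_iff₀ h3]
      rw [mem_ball_iff_norm] at hx
      nlinarith
    have h7 : sc p (r (n + 1)) H x = 0 := by simp [sc, h5]
    rw [h7]
    simp
  · show ipr (fun x => α n • sc p (r n) Ψ x + ε n • sc p (r (n + 1)) H x)
      (fun x => α n • sc p (r n) Ψ x + ε n • sc p (r (n + 1)) H x) = 1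
    rw [ipr_comb (cs_mono (cΨ n) (subset_univ _)) (cs_mono (cH n) (subset_univ _)),
      ipr_cross P p (Q.r0 n) (Q.r0 (n + 1)) (parE_step P Q n), ipr_sc p (Q.r0 n),
      ipr_sc p (Q.r0 (n + 1)), P.Ψn, P.Hn]
    have := Q.αε n
    linarith
  · show dirf (fun x => α n • sc p (r n) Ψ x + ε n • sc p (r (n + 1)) H x)
      (fun x => α n • sc p (r n) Ψ x + ε n • sc p (r (n + 1)) H x) * r n ^ 2 ≤ _
    rw [dirf_comb (cs_mono (cΨ n) (subset_univ _)) (cs_mono (cH n) (subset_univ _)),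
      dirf_cross P p (Q.r0 n) (Q.r0 (n + 1)) (parE_step P Q n),
      dirf_sc p (Q.r0 n) P.Ψcs.smooth P.Ψcs.smooth,
      dirf_sc p (Q.r0 (n + 1)) P.Hcs.smooth P.Hcs.smooth]
    have d1 := dirf_nonneg Ψ
    have d2 := dirf_nonneg H
    have r1 := Q.r0 n
    have r2 := Q.r0 (n + 1)
    have e1 := Q.αε n
    have e2 : α n ^ 2 ≤ 1 := by nlinarith [sq_nonneg (ε n)]
    have e3 : ε n ^ 2 * r n ^ 2 / r (n + 1) ^ 2 ≤ 1 := by
      rw [div_le_one (by positivity)]
      exact Q.εr n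
    have e4 : (α n ^ 2 * ((r n ^ 2)⁻¹ * dirf Ψ Ψ) + 2 * (α n * ε n) * 0 +
        ε n ^ 2 * ((r (n + 1) ^ 2)⁻¹ * dirf H H)) * r n ^ 2 =
        α n ^ 2 * dirf Ψ Ψ + ε n ^ 2 * r n ^ 2 / r (n + 1) ^ 2 * dirf H H := by
      field_simp
      ring
    rw [e4]
    have e5 := mul_le_mul_of_nonneg_right e2 d1
    have e6 := mul_le_mul_of_nonneg_right e3 d2
    linarith

end Pool.Agent.Y686.EJ
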